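import Mathlib

/-!
# Project PS (MP_19c155_gt), piece PS-16: `top_eigen`, `exists_frame`
-/

open MeasureTheory Set Metric Filter Module Matrix
open scoped NNReal Topology RealInnerProductSpace ENNReal Real

namespace Pool.Agent.Helper19.PS

private theorem ps16_inner {ι : Type*} [Fintype ι] (x y : EuclideanSpace ℝ ι) :
    inner ℝ x y = x.ofLp ⬝ᵥ y.ofLp := by
  rw [EuclideanSpace.inner_eq_star_dotProduct, star_trivial, dotProduct_comm]

private theorem ps16_parseval {ι κ : Type*} [Fintype ι] [Fintype κ]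
    (b : OrthonormalBasis κ ℝ (EuclideanSpace ℝ ι)) (x y : ι → ℝ) :
    ∑ i, (x ⬝ᵥ (b i).ofLp) * ((b i).ofLp ⬝ᵥ y) = x ⬝ᵥ y := by
  have h := b.sum_inner_mul_inner (WithLp.toLp 2 x) (WithLp.toLp 2 y)
  simpa only [ps16_inner] using h

theorem top_eigen {ι : Type*} [Fintype ι] [DecidableEq ι] (T : Matrix ι ι ℝ) (hT : Tᵀ = T)
    (ζ : ι → ℝ) (hζ : ζ ⬝ᵥ ζ = 1) :
    ∃ (ξ : ι → ℝ) (l : ℝ), ξ ⬝ᵥ ξ = 1 ∧ T *ᵥ ξ = l • ξ ∧ ζ ⬝ᵥ (T *ᵥ ζ) ≤ l := by
  have hA : T.IsHermitian := by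
    rw [Matrix.IsHermitian, conjTranspose_eq_transpose_of_trivial]; exact hT
  have hne : Nonempty ι := by
    by_contra hcon
    rw [not_nonempty_iff] at hcon
    simp at hζ
  obtain ⟨i₀, -, hi₀⟩ := Finset.exists_max_image (Finset.univ : Finset ι) hA.eigenvalues
    Finset.univ_nonempty
  refine ⟨(hA.eigenvectorBasis i₀).ofLp, hA.eigenvalues i₀, ?_, hA.mulVec_eigenvectorBasis i₀, ?_⟩
  · rw [← ps16_inner, real_inner_self_eq_norm_sq, hA.eigenvectorBasis.orthonormal.1 i₀, one_pow]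
  · rw [← ps16_parseval hA.eigenvectorBasis ζ (T *ᵥ ζ)]
    have key : ∀ i, (hA.eigenvectorBasis i).ofLp ⬝ᵥ (T *ᵥ ζ)
        = hA.eigenvalues i * ((hA.eigenvectorBasis i).ofLp ⬝ᵥ ζ) := by
      intro i
      rw [dotProduct_mulVec, ← mulVec_transpose, hT]
      have := hA.mulVec_eigenvectorBasis i
      rw [this, smul_dotProduct, smul_eq_mul]
    calc ∑ i, (ζ ⬝ᵥ (hA.eigenvectorBasis i).ofLp) * ((hA.eigenvectorBasis i).ofLp ⬝ᵥ (T *ᵥ ζ))
        ≤ ∑ i, hA.eigenvalues i₀ * ((ζ ⬝ᵥ (hA.eigenvectorBasis i).ofLp)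
            * ((hA.eigenvectorBasis i).ofLp ⬝ᵥ ζ)) := by
          refine Finset.sum_le_sum fun i _ => ?_
          rw [key i, dotProduct_comm ζ]
          have h1 := hi₀ i (Finset.mem_univ i)
          nlinarith [mul_self_nonneg ((hA.eigenvectorBasis i).ofLp ⬝ᵥ ζ)]
      _ = hA.eigenvalues i₀ := by
          rw [← Finset.mul_sum, ps16_parseval, hζ, mul_one]

theorem exists_frame {d : ℕ} (ξ : Fin 2 ⊕ Fin d → ℝ) (hξ : ξ ⬝ᵥ ξ = 1)
    (v : Fin d → (Fin 2 ⊕ Fin d → ℝ)) :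
    ∃ O : Matrix (Fin 2 ⊕ Fin d) (Fin 2 ⊕ Fin d) ℝ, Oᵀ * O = 1 ∧
      O *ᵥ Pi.single (Sum.inl 0) 1 = ξ ∧
      ∀ i, (O *ᵥ Pi.single (Sum.inl 1) 1) ⬝ᵥ v i = 0 := by
  classical
  -- a unit vector orthogonal to everything
  let f : Option (Fin d) → EuclideanSpace ℝ (Fin 2 ⊕ Fin d) :=
    fun o => WithLp.toLp 2 (o.elim ξ v)
  let K : Submodule ℝ (EuclideanSpace ℝ (Fin 2 ⊕ Fin d)) := Submodule.span ℝ (Set.range f)
  have hK : finrank ℝ K ≤ d + 1 := by
    have := finrank_range_le_card (R := ℝ) f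
    simpa [Set.finrank] using this
  have hE : finrank ℝ (EuclideanSpace ℝ (Fin 2 ⊕ Fin d)) = d + 2 := by
    simp [add_comm]
  have hsum := Submodule.finrank_add_finrank_orthogonal K
  have hKo : Kᗮ ≠ ⊥ := by
    intro h0
    rw [h0, finrank_bot, hE] at hsum
    omega
  obtain ⟨u₀, hu₀, hu₀n⟩ := Submodule.exists_mem_ne_zero_of_ne_bot hKo
  have hn0 : ‖u₀‖ ≠ 0 := norm_ne_zero_iff.2 hu₀n
  set u : EuclideanSpace ℝ (Fin 2 ⊕ Fin d) := ‖u₀‖⁻¹ • u₀ with hu
  have hun : ‖u‖ = 1 := by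
    rw [hu, norm_smul, norm_inv, norm_norm, inv_mul_cancel₀ hn0]
  have huK : u ∈ Kᗮ := Submodule.smul_mem _ _ hu₀
  have huf : ∀ o, inner ℝ u (f o) = 0 := by
    intro o
    rw [real_inner_comm]
    exact (Submodule.mem_orthogonal K u).1 huK (f o) (Submodule.subset_span ⟨o, rfl⟩)
  have hf0 : ‖f none‖ = 1 := by
    have h1 : inner ℝ (f none) (f none) = 1 := by
      rw [ps16_inner]; exact hξ
    rw [real_inner_self_eq_norm_sq] at h1
    have h2 : 0 ≤ ‖f none‖ := norm_nonneg _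
    nlinarith
  -- extend
  let g : Fin 2 ⊕ Fin d → EuclideanSpace ℝ (Fin 2 ⊕ Fin d) :=
    Sum.elim ![f none, u] (fun _ => 0)
  let s : Set (Fin 2 ⊕ Fin d) := Set.range Sum.inl
  have hs : Orthonormal ℝ (s.domRestrict g) := by
    constructor
    · rintro ⟨_, ⟨i, rfl⟩⟩
      fin_cases i
      · simpa [g] using hf0
      · simpa [g] using hun
    · rintro ⟨_, ⟨i, rfl⟩⟩ ⟨_, ⟨j, rfl⟩⟩ hij
      fin_cases i <;> fin_cases j
      · exact absurd rfl hij
      · have := huf none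
        rw [real_inner_comm] at this
        simpa [g] using this
      · simpa [g] using huf none
      · exact absurd rfl hij
  obtain ⟨b, hb⟩ := hs.exists_orthonormalBasis_extension_of_card_eq (by simp)
  have hb0 : b (Sum.inl 0) = f none := by
    rw [hb _ ⟨0, rfl⟩]; simp [g]
  have hb1 : b (Sum.inl 1) = u := by
    rw [hb _ ⟨1, rfl⟩]; simp [g]
  refine ⟨Matrix.of fun i j => (b j).ofLp i, ?_, ?_, ?_⟩
  · ext i j
    rw [mul_apply]
    have h1 := orthonormal_iff_ite.1 b.orthonormal i j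
    rw [ps16_inner] at h1
    simp only [transpose_apply, of_apply, one_apply]
    exact h1
  · rw [mulVec_single_one]
    ext i
    simp only [col_apply, of_apply, hb0]
    rfl
  · intro i
    have h1 := huf (some i)
    rw [ps16_inner] at h1
    rw [mulVec_single_one]
    have h2 : (Matrix.of fun i j => (b j).ofLp i).col (Sum.inl 1) = u.ofLp := by
      ext k
      simp only [col_apply, of_apply, hb1]
    rw [h2]
    exact h1

end Pool.Agent.Helper19.PS
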